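import Pool.Agent.Helper83.EIN2.Goals

/-!
# Packet EIN2-NR (MP_06d934_gt): the limit points `LR` and `LL` far are nondegenerate zeros of `FR`.
-/

set_option autoImplicit false

namespace Pool.Agent.Helper87.EIN2

open Pool.Agent.Helper83.EIN2

theorem dFR (a β : ℝ) (z d : Fin 6 → ℝ)
    (h : HasDerivAt (fun s : ℝ ↦ FR a β 0 (z + s • d)) 0 0) :
    (2 * (d 2 * z 4 * z 3 * z 5 + z 2 * d 4 * z 3 * z 5 + z 2 * z 4 * d 3 * z 5 +
        z 2 * z 4 * z 3 * d 5) * (z 0 - 1) + 2 * z 2 * z 4 * z 3 * z 5 * d 0 +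
      β * (2 * z 2 * d 2 + 2 * z 4 * d 4 - 2 * z 0 * d 0) * z 3 * z 5 +
      β * (z 2 ^ 2 + z 4 ^ 2 - z 0 ^ 2) * (d 3 * z 5 + z 3 * d 5) +
      (1 - β) * (2 * z 3 * d 3 + 2 * z 5 * d 5 - 2 * z 0 * d 0) * z 2 * z 4 +
      (1 - β) * (z 3 ^ 2 + z 5 ^ 2 - z 0 ^ 2) * (d 2 * z 4 + z 2 * d 4) = 0) ∧
    (2 * (d 2 * z 4 * z 3 * z 5 + z 2 * d 4 * z 3 * z 5 + z 2 * z 4 * d 3 * z 5 +
        z 2 * z 4 * z 3 * d 5) * (z 1 - 1) + 2 * z 2 * z 4 * z 3 * z 5 * d 1 = 0) ∧
    (2 * (d 0 * z 4 * z 1 * z 3 + z 0 * d 4 * z 1 * z 3 + z 0 * z 4 * d 1 * z 3 +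
        z 0 * z 4 * z 1 * d 3) * (z 2 - 1) + 2 * z 0 * z 4 * z 1 * z 3 * d 2 +
      (1 - β) * (2 * z 1 * d 1 + 2 * z 3 * d 3 - 2 * z 2 * d 2) * z 0 * z 4 +
      (1 - β) * (z 1 ^ 2 + z 3 ^ 2 - z 2 ^ 2) * (d 0 * z 4 + z 0 * d 4) = 0) ∧
    (2 * (d 0 * z 5 * z 1 * z 2 + z 0 * d 5 * z 1 * z 2 + z 0 * z 5 * d 1 * z 2 +
        z 0 * z 5 * z 1 * d 2) * (z 3 - 1) + 2 * z 0 * z 5 * z 1 * z 2 * d 3 +
      β * (2 * z 1 * d 1 + 2 * z 2 * d 2 - 2 * z 3 * d 3) * z 0 * z 5 +
      β * (z 1 ^ 2 + z 2 ^ 2 - z 3 ^ 2) * (d 0 * z 5 + z 0 * d 5) = 0) ∧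
    (2 * (d 0 * z 2 * z 1 * z 5 + z 0 * d 2 * z 1 * z 5 + z 0 * z 2 * d 1 * z 5 +
        z 0 * z 2 * z 1 * d 5) * (z 4 - 1) + 2 * z 0 * z 2 * z 1 * z 5 * d 4 +
      (1 - β) * (2 * z 1 * d 1 + 2 * z 5 * d 5 - 2 * z 4 * d 4) * z 0 * z 2 +
      (1 - β) * (z 1 ^ 2 + z 5 ^ 2 - z 4 ^ 2) * (d 0 * z 2 + z 0 * d 2) = 0) ∧
    (2 * (d 0 * z 3 * z 1 * z 4 + z 0 * d 3 * z 1 * z 4 + z 0 * z 3 * d 1 * z 4 +
        z 0 * z 3 * z 1 * d 4) * (z 5 - 1) + 2 * z 0 * z 3 * z 1 * z 4 * d 5 +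
      β * (2 * z 1 * d 1 + 2 * z 4 * d 4 - 2 * z 5 * d 5) * z 0 * z 3 +
      β * (z 1 ^ 2 + z 4 ^ 2 - z 5 ^ 2) * (d 0 * z 3 + z 0 * d 3) = 0) := by
  rw [hasDerivAt_pi] at h
  have h0 := (h 0).deriv
  have h1 := (h 1).deriv
  have h2 := (h 2).deriv
  have h3 := (h 3).deriv
  have h4 := (h 4).deriv
  have h5 := (h 5).deriv
  simp only [FR, Matrix.cons_val, Pi.add_apply, Pi.smul_apply, smul_eq_mul,
    Pi.zero_apply] at h0 h1 h2 h3 h4 h5
  simp (disch := fun_prop) only [deriv_fun_add, deriv_fun_sub, deriv_fun_mul, deriv_fun_pow,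
    deriv_const, deriv_id''] at h0 h1 h2 h3 h4 h5
  refine ⟨?_, ?_, ?_, ?_, ?_, ?_⟩
  · linear_combination h0
  · linear_combination h1
  · linear_combination h2
  · linear_combination h3
  · linear_combination h4
  · linear_combination h5

theorem uL_pos {β : ℝ} (h0 : 0 < β) (h1 : β < 1) : 0 < uL β := by
  unfold uL
  have : 0 < 1 - β := by linarith
  positivity

theorem uL_eq {β : ℝ} (h0 : 0 < β) (_h1 : β < 1) :
    uL β * ((1 + β) ^ 2 + β * (1 - β)) = 2 * β * (1 + β) ^ 2 := by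
  have hden : (1 / (2 * β) + (1 - β) / (2 * (1 + β) ^ 2)) * (2 * β * (1 + β) ^ 2) =
      (1 + β) ^ 2 + β * (1 - β) := by
    have : 0 < 1 + β := by linarith
    field_simp
  have hne : 1 / (2 * β) + (1 - β) / (2 * (1 + β) ^ 2) ≠ 0 := by
    intro h
    rw [h, zero_mul] at hden
    have : 0 < (1 + β) ^ 2 + β * (1 - β) := by
      have : 0 < 1 - β := by linarith
      positivity
    linarith
  unfold uL
  rw [← hden, ← mul_assoc, one_div_mul_cancel hne, one_mul]

theorem nr : NR := by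
  intro a β h0 h1
  have hg : 0 < 1 - β := by linarith
  have hb : 0 < 1 + β := by linarith
  have hc : 0 < 2 - β := by linarith
  refine ⟨⟨?_, ?_⟩, ?_, ?_⟩
  · ext i
    fin_cases i <;> simp [FR] <;> ring
  · intro d h
    obtain ⟨e0, e1, e2, e3, e4, e5⟩ := dFR a β _ d h
    simp only [Matrix.cons_val] at e0 e1 e2 e3 e4 e5
    have d1 : d 1 = 0 := by
      have h2 : (2 * β * (2 - β) * (1 + β) * (1 - β)) * d 1 = 0 := by linear_combination e1
      exact (mul_eq_zero.1 h2).resolve_left (by positivity)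
    rw [d1] at e2 e3 e4 e5
    have r2 : (1 + β - (1 - β) * β) * d 2 + (1 - β) * β * d 3 = 0 := by
      have h2 : (4 * (2 - β)) * ((1 + β - (1 - β) * β) * d 2 + (1 - β) * β * d 3) = 0 := by
        linear_combination e2
      exact (mul_eq_zero.1 h2).resolve_left (by positivity)
    have r3 : (1 + β) * d 2 - β * d 3 = 0 := by
      have h2 : (4 * (1 - β) * β) * ((1 + β) * d 2 - β * d 3) = 0 := by
        linear_combination e3
      exact (mul_eq_zero.1 h2).resolve_left (by positivity)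
    have d2 : d 2 = 0 := by linear_combination (r2 + (1 - β) * r3) / 2
    have d3 : d 3 = 0 := by
      have h2 : β * d 3 = 0 := by linear_combination (1 + β) * d2 - r3
      exact (mul_eq_zero.1 h2).resolve_left h0.ne'
    have r4 : (1 - β) * d 4 - (2 - β) * d 5 = 0 := by
      have h2 : (4 * β * (1 - β)) * ((1 - β) * d 4 - (2 - β) * d 5) = 0 := by
        linear_combination -e4
      exact (mul_eq_zero.1 h2).resolve_left (by positivity)
    have r5 : (2 - β - β * (1 - β)) * d 5 + β * (1 - β) * d 4 = 0 := by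
      have h2 : (4 * (1 + β)) * ((2 - β - β * (1 - β)) * d 5 + β * (1 - β) * d 4) = 0 := by
        linear_combination e5
      exact (mul_eq_zero.1 h2).resolve_left (by positivity)
    have d5 : d 5 = 0 := by linear_combination (r5 - β * r4) / 2
    have d4 : d 4 = 0 := by
      have h2 : (1 - β) * d 4 = 0 := by linear_combination r4 + (2 - β) * d5
      exact (mul_eq_zero.1 h2).resolve_left hg.ne'
    have d0 : d 0 = 0 := by
      rw [d2, d3, d4, d5] at e0
      have h2 : (2 * β * (1 - β) * (4 - β + β ^ 2)) * d 0 = 0 := by linear_combination -e0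
      refine (mul_eq_zero.1 h2).resolve_left ?_
      have : 0 < 4 - β + β ^ 2 := by nlinarith
      positivity
    funext i
    fin_cases i
    · exact d0
    · exact d1
    · exact d2
    · exact d3
    · exact d4
    · exact d5
  · have hu := uL_eq h0 h1
    have hup := uL_pos h0 h1
    ext i
    fin_cases i
    · simp [FR]
      linear_combination -(β * uL β) * hu
    all_goals simp [FR] <;> ring
  · intro d h
    have hu := uL_eq h0 h1
    have hup := uL_pos h0 h1
    obtain ⟨e0, e1, e2, e3, e4, e5⟩ := dFR a β _ d h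
    simp only [Matrix.cons_val] at e0 e1 e2 e3 e4 e5
    have d1 : d 1 = 0 := by
      have h2 : (2 * β * β * (1 + β) * (1 + β)) * d 1 = 0 := by linear_combination e1
      exact (mul_eq_zero.1 h2).resolve_left (by positivity)
    rw [d1] at e2 e3 e4 e5
    have r2 : (1 + β - (1 - β) * β) * d 2 + (1 - β) * β * d 3 = 0 := by
      have h2 : (2 * uL β * β) * ((1 + β - (1 - β) * β) * d 2 + (1 - β) * β * d 3) = 0 := by
        linear_combination e2
      exact (mul_eq_zero.1 h2).resolve_left (by positivity)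
    have r3 : (1 + β) * d 2 - β * d 3 = 0 := by
      have h2 : (2 * uL β * (1 + β) * β) * ((1 + β) * d 2 - β * d 3) = 0 := by
        linear_combination e3
      exact (mul_eq_zero.1 h2).resolve_left (by positivity)
    have d2 : d 2 = 0 := by linear_combination (r2 + (1 - β) * r3) / 2
    have d3 : d 3 = 0 := by
      have h2 : β * d 3 = 0 := by linear_combination (1 + β) * d2 - r3
      exact (mul_eq_zero.1 h2).resolve_left h0.ne'
    have r4 : (1 + β - (1 - β) * β) * d 4 + (1 - β) * β * d 5 = 0 := by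
      have h2 : (2 * uL β * β) * ((1 + β - (1 - β) * β) * d 4 + (1 - β) * β * d 5) = 0 := by
        linear_combination e4
      exact (mul_eq_zero.1 h2).resolve_left (by positivity)
    have r5 : (1 + β) * d 4 - β * d 5 = 0 := by
      have h2 : (2 * uL β * (1 + β) * β) * ((1 + β) * d 4 - β * d 5) = 0 := by
        linear_combination e5
      exact (mul_eq_zero.1 h2).resolve_left (by positivity)
    have d4 : d 4 = 0 := by linear_combination (r4 + (1 - β) * r5) / 2
    have d5 : d 5 = 0 := by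
      have h2 : β * d 5 = 0 := by linear_combination (1 + β) * d4 - r5
      exact (mul_eq_zero.1 h2).resolve_left h0.ne'
    have d0 : d 0 = 0 := by
      rw [d2, d3, d4, d5] at e0
      have h2 : (2 * β ^ 2 * (1 + β) ^ 2) * d 0 = 0 := by
        linear_combination -e0 - 2 * β * d 0 * hu
      exact (mul_eq_zero.1 h2).resolve_left (by positivity)
    funext i
    fin_cases i
    · exact d0
    · exact d1
    · exact d2
    · exact d3
    · exact d4
    · exact d5

end Pool.Agent.Helper87.EIN2
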